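import Pool.Agent.Q286.RL.Grp

/-!
# The argument of Heilbronn, Aramata and Brauer

`Γ` is a finite group with the complete family `r k` of irreducible representations, `o k` are real
numbers (the orders of the Artin L-functions at one point) such that the numbers
`∑ mult(l, r k g) o k` are nonnegative for all `g` and all `l ≠ 1` (Hecke). If `∑ n k o k = 0`, the sum
over the nontrivial `k`, then `o k = 0` for all nontrivial `k`.
-/

set_option autoImplicit false

namespace Pool.Agent.Q284.T

open Complex Module Polynomial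
open scoped Classical
open Pool.Agent.Q286.RL (Fam exists_eigbasis pow_eigen semisimple_of_pow)

section eig

variable {V : Type*} [AddCommGroup V] [Module ℂ V] [FiniteDimensional ℂ V]

/-- the eigenvalues of an endomorphism of finite order, with the multiplicities -/
theorem exists_eig' (A : Module.End ℂ V) {m : ℕ} (hm : 0 < m) (hA : A ^ m = 1) :
    ∃ l : Fin (finrank ℂ V) → ℂ, (∀ i, ‖l i‖ = 1) ∧
      (∀ c : ℂ, LinearMap.det (1 - c • A) = ∏ i, (1 - c * l i)) ∧
      (∀ k : ℕ, LinearMap.trace ℂ V (A ^ k) = ∑ i, l i ^ k) ∧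
      ∀ x : ℂ, finrank ℂ (A.eigenspace x) = (Finset.univ.filter fun i => l i = x).card := by
  obtain ⟨e, l, h⟩ := exists_eigbasis A hm hA
  have hmat : LinearMap.toMatrix e e A = Matrix.diagonal l := by
    ext i j
    rw [LinearMap.toMatrix_apply, h j, map_smul, Finsupp.smul_apply, Basis.repr_self,
      Matrix.diagonal_apply, Finsupp.single_apply, smul_eq_mul]
    by_cases hij : i = j
    · subst hij; simp
    · rw [if_neg hij, if_neg (fun h => hij h.symm), mul_zero]
  refine ⟨l, fun i => ?_, fun c => ?_, fun k => ?_, fun x => ?_⟩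
  · have h1 := pow_eigen A (h i) m
    rw [hA, Module.End.one_apply] at h1
    have h2 : (l i ^ m - 1) • e i = 0 := by rw [sub_smul, one_smul, ← h1, sub_self]
    rcases smul_eq_zero.1 h2 with h3 | h3
    · have h4 : l i ^ m = 1 := by linear_combination h3
      have h5 : ‖l i‖ ^ m = 1 := by rw [← norm_pow, h4, norm_one]
      exact (pow_eq_one_iff_of_nonneg (norm_nonneg _) hm.ne').1 h5
    · exact absurd h3 (e.ne_zero i)
  · have h1 : LinearMap.toMatrix e e (1 - c • A) = Matrix.diagonal fun i => 1 - c * l i := by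
      ext i j
      rw [LinearMap.toMatrix_apply]
      have : (1 - c • A) (e j) = (1 - c * l j) • e j := by
        rw [LinearMap.sub_apply, Module.End.one_apply, LinearMap.smul_apply, h j, smul_smul,
          sub_smul, one_smul]
      rw [this, map_smul, Finsupp.smul_apply, Basis.repr_self, Matrix.diagonal_apply,
        Finsupp.single_apply, smul_eq_mul]
      by_cases hij : i = j
      · subst hij; simp
      · rw [if_neg hij, if_neg (fun h => hij h.symm), mul_zero]
    rw [← LinearMap.det_toMatrix e, h1, Matrix.det_diagonal]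
  · have h1 : LinearMap.toMatrix e e (A ^ k) = Matrix.diagonal fun i => l i ^ k := by
      ext i j
      rw [LinearMap.toMatrix_apply, pow_eigen A (h j) k, map_smul, Finsupp.smul_apply,
        Basis.repr_self, Matrix.diagonal_apply, Finsupp.single_apply, smul_eq_mul]
      by_cases hij : i = j
      · subst hij; simp
      · rw [if_neg hij, if_neg (fun h => hij h.symm), mul_zero]
    rw [LinearMap.trace_eq_matrix_trace ℂ e, h1, Matrix.trace_diagonal]
  · have h2 : A.IsFinitelySemisimple := (semisimple_of_pow A hm hA).isFinitelySemisimple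
    rw [← h2.maxGenEigenspace_eq_eigenspace x, LinearMap.finrank_maxGenEigenspace_eq,
      ← LinearMap.charpoly_toMatrix A e, hmat, Matrix.charpoly_diagonal,
      ← Polynomial.count_roots]
    have h3 : (∏ i, (X - C (l i) : ℂ[X])) =
        (Multiset.map (fun a => (X - C a : ℂ[X])) (Finset.univ.val.map l)).prod := by
      rw [Multiset.map_map]
      rfl
    rw [h3, Polynomial.roots_multiset_prod_X_sub_C, Multiset.count_map, Finset.card_def,
      Finset.filter_val]
    congr 1
    refine Multiset.filter_congr fun i _ => ?_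
    exact eq_comm

end eig

variable {Γ : Type} [Group Γ] [Finite Γ] {κ : Type} [Fintype κ] {n : κ → ℕ}
  {r : ∀ k, Representation ℂ Γ (Fin (n k) → ℂ)}

/-- the representation is not trivial -/
def NT {d : ℕ} (ρ : Representation ℂ Γ (Fin d → ℂ)) : Prop := ∃ g, ρ g ≠ 1

/-- the multiplicity of the eigenvalue `x` of `ρ g` -/
noncomputable def mult {d : ℕ} (ρ : Representation ℂ Γ (Fin d → ℂ)) (g : Γ) (x : ℂ) : ℕ :=
  finrank ℂ (Module.End.eigenspace (ρ g) x)

/-- the character of a nontrivial irreducible representation has the sum `0` -/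
theorem sum_char {d : ℕ} (ρ : Representation ℂ Γ (Fin d → ℂ)) (hi : ρ.IsIrreducible) (hn : NT ρ)
    [Fintype Γ] : ∑ g, ρ.character g = 0 := by
  obtain ⟨l, h1, h2⟩ := Pool.Agent.W353.L1.central ρ hi (fun _ => 1) fun _ _ => rfl
  simp only [one_smul, one_mul] at h1 h2
  obtain ⟨g, hg⟩ := hn
  have h3 : (∑ x, ρ x) * ρ g = ∑ x, ρ x := by
    rw [Finset.sum_mul]
    simp only [← map_mul]
    exact Fintype.sum_equiv (Equiv.mulRight g) _ _ fun _ => rfl
  rw [h1, smul_mul_assoc, one_mul] at h3
  have h4 : l • (ρ g - 1) = 0 := by rw [smul_sub, h3, sub_self]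
  have h5 : l = 0 := (smul_eq_zero.1 h4).resolve_right (sub_ne_zero.2 hg)
  rw [← h2, h5, zero_mul]

theorem sum_char_triv {d : ℕ} (ρ : Representation ℂ Γ (Fin d → ℂ)) (hn : ¬ NT ρ) (g : Γ) :
    ρ.character g = d := by
  have h1 : ρ g = 1 := by
    by_contra h
    exact hn ⟨g, h⟩
  unfold Representation.character
  rw [h1, LinearMap.trace_one, Module.finrank_fin_fun]

theorem _root_.Pool.Agent.Q286.RL.Fam.reg (h : Fam r) (g : Γ) :
    ∑ k, (n k : ℂ) * (r k).character g = if g = 1 then (Nat.card Γ : ℂ) else 0 := by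
  have := Fintype.ofFinite Γ
  exact Pool.Agent.W353.L1.regular Finset.univ r (fun k _ => h.irr k)
    (fun k _ l _ hkl => h.ne k l hkl) h.sum g

/-- the trivial representation occurs once -/
theorem triv_sum (h : Fam r) :
    ∑ k ∈ Finset.univ.filter (fun k => ¬ NT (r k)), (n k : ℂ) * n k = 1 := by
  have := Fintype.ofFinite Γ
  have hG : (Nat.card Γ : ℂ) ≠ 0 := by exact_mod_cast Nat.card_pos.ne'
  have h1 : ∑ g, ∑ k, (n k : ℂ) * (r k).character g = (Nat.card Γ : ℂ) := by
    simp only [h.reg, Finset.sum_ite_eq', Finset.mem_univ, if_true]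
  rw [Finset.sum_comm] at h1
  simp only [← Finset.mul_sum] at h1
  rw [← Finset.sum_filter_add_sum_filter_not Finset.univ (fun k => NT (r k))] at h1
  have h2 : ∑ k ∈ Finset.univ.filter (fun k => NT (r k)), (n k : ℂ) * ∑ g, (r k).character g = 0 :=
    Finset.sum_eq_zero fun k hk => by
      rw [sum_char (r k) (h.irr k) (Finset.mem_filter.1 hk).2, mul_zero]
  have h3 : ∑ k ∈ Finset.univ.filter (fun k => ¬ NT (r k)), (n k : ℂ) * ∑ g, (r k).character g =
      (∑ k ∈ Finset.univ.filter (fun k => ¬ NT (r k)), (n k : ℂ) * n k) * Nat.card Γ := by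
    rw [Finset.sum_mul]
    refine Finset.sum_congr rfl fun k hk => ?_
    simp only [sum_char_triv (r k) (Finset.mem_filter.1 hk).2, Finset.sum_const, nsmul_eq_mul,
      Finset.card_univ, Nat.card_eq_fintype_card]
    ring
  rw [h2, zero_add, h3] at h1
  exact mul_right_cancel₀ hG (by rw [h1, one_mul])

/-- the augmentation character -/
theorem aug (h : Fam r) (g : Γ) :
    ∑ k ∈ Finset.univ.filter (fun k => NT (r k)), (n k : ℂ) * (r k).character g =
      (if g = 1 then (Nat.card Γ : ℂ) else 0) - 1 := by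
  have h1 := h.reg g
  rw [← Finset.sum_filter_add_sum_filter_not Finset.univ (fun k => NT (r k))] at h1
  have h2 : ∑ k ∈ Finset.univ.filter (fun k => ¬ NT (r k)), (n k : ℂ) * (r k).character g = 1 := by
    rw [← triv_sum h]
    exact Finset.sum_congr rfl fun k hk => by
      rw [sum_char_triv (r k) (Finset.mem_filter.1 hk).2]
  rw [h2] at h1
  rw [← h1]
  ring

/-- sums over the eigenvalues -/
theorem expand (g : Γ) : ∃ (l : ∀ k, Fin (finrank ℂ (Fin (n k) → ℂ)) → ℂ) (Λ : Finset ℂ),
    (∀ x ∈ Λ, ‖x‖ = 1) ∧ (1 : ℂ) ∈ Λ ∧ (∀ k, (r k).character g = ∑ i, l k i) ∧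
    ∀ (f : ℂ → ℂ) (o : κ → ℂ), ∑ k, o k * ∑ i, f (l k i) =
      ∑ x ∈ Λ, f x * ∑ k, (mult (r k) g x : ℂ) * o k := by
  have hA : ∀ k, (r k g) ^ Nat.card Γ = 1 := fun k => by
    rw [← map_pow, pow_card_eq_one', map_one]
  choose l h1 h2 h3 h4 using fun k => exists_eig' (r k g) Nat.card_pos (hA k)
  set Λ : Finset ℂ := insert 1 (Finset.univ.biUnion fun k => Finset.univ.image (l k)) with hΛ
  have hmem : ∀ k i, l k i ∈ Λ := fun k i => Finset.mem_insert_of_mem
    (Finset.mem_biUnion.2 ⟨k, Finset.mem_univ _, Finset.mem_image_of_mem _ (Finset.mem_univ _)⟩)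
  refine ⟨l, Λ, fun x hx => ?_, Finset.mem_insert_self _ _, fun k => ?_, fun f o => ?_⟩
  · rcases Finset.mem_insert.1 hx with rfl | hx
    · exact norm_one
    · obtain ⟨k, -, hk⟩ := Finset.mem_biUnion.1 hx
      obtain ⟨i, -, rfl⟩ := Finset.mem_image.1 hk
      exact h1 k i
  · have := h3 k 1
    simp only [pow_one] at this
    exact this
  · have e1 : ∀ k, ∑ i, f (l k i) = ∑ x ∈ Λ, (mult (r k) g x : ℂ) * f x := by
      intro k
      rw [← Finset.sum_fiberwise_of_maps_to (s := Finset.univ) (t := Λ) (g := l k)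
        (fun i _ => hmem k i)]
      refine Finset.sum_congr rfl fun x _ => ?_
      rw [Finset.sum_congr rfl (g := fun _ => f x) fun i hi => by rw [(Finset.mem_filter.1 hi).2],
        Finset.sum_const, nsmul_eq_mul]
      unfold mult
      rw [h4 k x]
    simp only [e1, Finset.mul_sum]
    rw [Finset.sum_comm]
    refine Finset.sum_congr rfl fun x _ => Finset.sum_congr rfl fun k _ => ?_
    ring

/-- **Heilbronn, Aramata, Brauer** -/
theorem orders_zero (h : Fam r) {o : κ → ℝ}
    (hecke : ∀ (g : Γ) (x : ℂ), x ≠ 1 → 0 ≤ ∑ k, (mult (r k) g x : ℝ) * o k)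
    (h0 : ∑ k ∈ Finset.univ.filter (fun k => NT (r k)), (n k : ℝ) * o k = 0) {k : κ}
    (hk : NT (r k)) : o k = 0 := by
  have := Fintype.ofFinite Γ
  have hG : (Nat.card Γ : ℝ) ≠ 0 := by exact_mod_cast Nat.card_pos.ne'
  set D : Γ → ℝ := fun g => ∑ k, o k * ((n k : ℝ) - ((r k).character g).re) with hD
  -- expansion
  have key : ∀ g : Γ, 0 ≤ D g ∧ (D g = 0 →
      ∑ k, (o k : ℂ) * (r k).character g = ((∑ k, o k * (n k : ℝ) : ℝ) : ℂ)) := by
    intro g
    obtain ⟨l, Λ, a1, a2, a3, a4⟩ := expand (r := r) g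
    set Nx : ℂ → ℝ := fun x => ∑ k, (mult (r k) g x : ℝ) * o k with hN
    have hNc : ∀ x, ∑ k, (mult (r k) g x : ℂ) * (o k : ℂ) = (Nx x : ℂ) := by
      intro x
      rw [hN]
      push_cast
      rfl
    have b1 : ∑ k, (o k : ℂ) * (n k : ℂ) = ∑ x ∈ Λ, (Nx x : ℂ) := by
      have := a4 (fun _ => 1) fun k => (o k : ℂ)
      simp only [Finset.sum_const, Finset.card_univ, Fintype.card_fin, Module.finrank_fin_fun,
        nsmul_eq_mul, mul_one, one_mul, hNc] at this
      exact this
    have b2 : ∑ k, (o k : ℂ) * (r k).character g = ∑ x ∈ Λ, x * (Nx x : ℂ) := by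
      have := a4 (fun x => x) fun k => (o k : ℂ)
      simp only [hNc] at this
      rw [← this]
      exact Finset.sum_congr rfl fun k _ => by rw [a3]
    have b3 : (D g : ℂ).re = (∑ x ∈ Λ, (1 - x) * (Nx x : ℂ)).re := by
      simp only [sub_mul, one_mul, Finset.sum_sub_distrib]
      rw [← b1, ← b2, ← Finset.sum_sub_distrib, Complex.ofReal_re, hD, Complex.re_sum]
      refine Finset.sum_congr rfl fun k _ => ?_
      rw [← mul_sub, Complex.re_ofReal_mul, Complex.sub_re, Complex.natCast_re]
    have b4 : D g = ∑ x ∈ Λ, (1 - x.re) * Nx x := by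
      rw [Complex.ofReal_re] at b3
      rw [b3, Complex.re_sum]
      refine Finset.sum_congr rfl fun x _ => ?_
      rw [Complex.re_mul_ofReal, Complex.sub_re, Complex.one_re]
    have hre : ∀ x ∈ Λ, x.re ≤ 1 := fun x hx => (Complex.re_le_norm x).trans (a1 x hx).le
    have hterm : ∀ x ∈ Λ, 0 ≤ (1 - x.re) * Nx x := by
      intro x hx
      by_cases h1 : x = 1
      · rw [h1, Complex.one_re, sub_self, zero_mul]
      · exact mul_nonneg (by linarith [hre x hx]) (hecke g x h1)
    refine ⟨by rw [b4]; exact Finset.sum_nonneg hterm, fun hDg => ?_⟩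
    rw [b4, Finset.sum_eq_zero_iff_of_nonneg hterm] at hDg
    have hz : ∀ x ∈ Λ, x ≠ 1 → Nx x = 0 := by
      intro x hx h1
      refine (mul_eq_zero.1 (hDg x hx)).resolve_left fun h2 => h1 ?_
      have h3 : x.re = 1 := by linarith
      have h4 := a1 x hx
      have h5 : x.re ^ 2 + x.im ^ 2 = 1 := by
        have := Complex.sq_norm x
        rw [h4, Complex.normSq_apply] at this
        nlinarith
      have h6 : x.im = 0 := by
        rw [h3] at h5
        nlinarith
      exact Complex.ext h3 h6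
    have hs : ∀ f : ℂ → ℂ, ∑ x ∈ Λ, f x * (Nx x : ℂ) = f 1 * (Nx 1 : ℂ) := by
      intro f
      refine Finset.sum_eq_single_of_mem 1 a2 fun x hx hx1 => ?_
      rw [hz x hx hx1]
      simp
    rw [b2]
    push_cast
    rw [b1, hs (fun x => x)]
    have := hs fun _ => 1
    simp only [one_mul] at this
    rw [this, one_mul]
  have hsum : ∑ g, D g = 0 := by
    have e1 : ∑ g, D g = ∑ k, o k * ((Nat.card Γ : ℝ) * n k - (∑ g, (r k).character g).re) := by
      simp only [hD]
      rw [Finset.sum_comm]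
      refine Finset.sum_congr rfl fun k _ => ?_
      rw [← Finset.mul_sum, Finset.sum_sub_distrib, Finset.sum_const, nsmul_eq_mul,
        Finset.card_univ, Complex.re_sum, Nat.card_eq_fintype_card]
    rw [e1, ← Finset.sum_filter_add_sum_filter_not Finset.univ (fun k => NT (r k))]
    have e2 : ∑ k ∈ Finset.univ.filter (fun k => NT (r k)),
        o k * ((Nat.card Γ : ℝ) * n k - (∑ g, (r k).character g).re) = 0 := by
      have : ∑ k ∈ Finset.univ.filter (fun k => NT (r k)),
          o k * ((Nat.card Γ : ℝ) * n k - (∑ g, (r k).character g).re) =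
          (Nat.card Γ : ℝ) * ∑ k ∈ Finset.univ.filter (fun k => NT (r k)), (n k : ℝ) * o k := by
        rw [Finset.mul_sum]
        refine Finset.sum_congr rfl fun k hk => ?_
        rw [sum_char (r k) (h.irr k) (Finset.mem_filter.1 hk).2, Complex.zero_re]
        ring
      rw [this, h0, mul_zero]
    have e3 : ∑ k ∈ Finset.univ.filter (fun k => ¬ NT (r k)),
        o k * ((Nat.card Γ : ℝ) * n k - (∑ g, (r k).character g).re) = 0 := by
      refine Finset.sum_eq_zero fun k hk => ?_
      simp only [sum_char_triv (r k) (Finset.mem_filter.1 hk).2, Finset.sum_const, nsmul_eq_mul,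
        Finset.card_univ, Nat.card_eq_fintype_card]
      rw [show ((Fintype.card Γ : ℂ) * (n k : ℂ)).re = (Fintype.card Γ : ℝ) * n k by
        rw [← Nat.cast_mul, Complex.natCast_re]
        push_cast
        rfl]
      ring
    rw [e2, e3, add_zero]
  have hall : ∀ g, D g = 0 := fun g =>
    (Finset.sum_eq_zero_iff_of_nonneg fun g _ => (key g).1).1 hsum g (Finset.mem_univ g)
  have hconst := fun g => (key g).2 (hall g)
  set c : ℂ := ((∑ k, o k * (n k : ℝ) : ℝ) : ℂ) with hc
  have h1 : ∑ g, (∑ l, (o l : ℂ) * (r l).character g) * (r k).character g⁻¹ =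
      (o k : ℂ) * (Nat.card Γ : ℂ) := by
    have h2 : ∑ g, (∑ l, (o l : ℂ) * (r l).character g) * (r k).character g⁻¹ =
        ∑ l, (o l : ℂ) * ∑ g, (r l).character g * (r k).character g⁻¹ := by
      simp only [Finset.sum_mul, Finset.mul_sum]
      rw [Finset.sum_comm]
      exact Finset.sum_congr rfl fun l _ => Finset.sum_congr rfl fun q _ => by ring
    rw [h2]
    have h3 : ∀ l, (o l : ℂ) * ∑ g, (r l).character g * (r k).character g⁻¹ =
        if l = k then (o k : ℂ) * (Nat.card Γ : ℂ) else 0 := by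
      intro l
      rw [Pool.Agent.W353.L1.ortho_fam Finset.univ r (fun k _ => h.irr k)
        (fun k _ l _ hkl => h.ne k l hkl) (Finset.mem_univ l) (Finset.mem_univ k)]
      split_ifs with hl
      · rw [hl]
      · rw [mul_zero]
    simp only [h3, Finset.sum_ite_eq', Finset.mem_univ, if_true]
  have h2 : ∑ g, (∑ l, (o l : ℂ) * (r l).character g) * (r k).character g⁻¹ = 0 := by
    simp only [hconst]
    rw [← Finset.mul_sum]
    have h3 : ∑ g, (r k).character g⁻¹ = ∑ g, (r k).character g :=
      Fintype.sum_equiv (Equiv.inv Γ) _ _ fun _ => rfl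
    rw [h3, sum_char (r k) (h.irr k) hk, mul_zero]
  rw [h2] at h1
  have hGc : (Nat.card Γ : ℂ) ≠ 0 := by exact_mod_cast Nat.card_pos.ne'
  have h3 := (mul_eq_zero.1 h1.symm).resolve_right hGc
  exact_mod_cast h3

end Pool.Agent.Q284.T
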