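import Pool.Agent.Q284.M.Fin

/-!
# The eigenvalues of the augmentation representation
-/

set_option autoImplicit false

namespace Pool.Agent.Q284.T

open Complex NumberField IsDedekindDomain
open scoped Classical
open Pool.Agent.H921R2.TatePole (nm two_le_nm nm_summable)
open Pool.Agent.TH942.ES
open Pool.Agent.Q284.M (NN al)

variable {Γ : Type} [Group Γ] [Finite Γ]

/-- the eigenvalues of `g` in the augmentation representation -/
noncomputable def rt (g : Γ) (j : Fin (Nat.card Γ - 1)) : ℂ :=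
  exp (2 * Real.pi * I / orderOf g) ^ ((j : ℕ) + 1)

theorem prim (g : Γ) : IsPrimitiveRoot (exp (2 * Real.pi * I / orderOf g)) (orderOf g) :=
  Complex.isPrimitiveRoot_exp _ (orderOf_pos g).ne'

theorem norm_rt (g : Γ) (j : Fin (Nat.card Γ - 1)) : ‖rt g j‖ = 1 := by
  unfold rt
  rw [norm_pow, (prim g).norm'_eq_one (orderOf_pos g).ne', one_pow]

theorem sum_rt (g : Γ) (k : ℕ) :
    ∑ j, rt g j ^ k = (if g ^ k = 1 then (Nat.card Γ : ℂ) else 0) - 1 := by
  set z : ℂ := exp (2 * Real.pi * I / orderOf g) with hz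
  have hp : IsPrimitiveRoot z (orderOf g) := prim g
  have hn : 0 < Nat.card Γ := Nat.card_pos
  have h1 : ∑ j, rt g j ^ k = ∑ m ∈ Finset.range (Nat.card Γ - 1), (z ^ k) ^ (m + 1) := by
    rw [← Fin.sum_univ_eq_sum_range (fun m => (z ^ k) ^ (m + 1))]
    refine Finset.sum_congr rfl fun j _ => ?_
    unfold rt
    rw [← hz, ← pow_mul, ← pow_mul, mul_comm k]
  have h2 : ∑ m ∈ Finset.range (Nat.card Γ), (z ^ k) ^ m =
      (∑ m ∈ Finset.range (Nat.card Γ - 1), (z ^ k) ^ (m + 1)) + 1 := by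
    conv_lhs => rw [show Nat.card Γ = (Nat.card Γ - 1) + 1 by omega]
    rw [Finset.sum_range_succ', pow_zero]
  rw [h1, eq_sub_iff_add_eq, ← h2]
  by_cases hk : g ^ k = 1
  · rw [if_pos hk, (hp.pow_eq_one_iff_dvd k).2 (orderOf_dvd_iff_pow_eq_one.2 hk)]
    simp
  · rw [if_neg hk]
    have h3 : z ^ k ≠ 1 := fun h => hk (orderOf_dvd_iff_pow_eq_one.1 ((hp.pow_eq_one_iff_dvd k).1 h))
    rw [geom_sum_eq h3, ← pow_mul, mul_comm, pow_mul,
      (hp.pow_eq_one_iff_dvd _).2 (orderOf_dvd_natCard g), one_pow, sub_self, zero_div]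

theorem rt_rev (g : Γ) (j : Fin (Nat.card Γ - 1)) :
    rt g (Fin.rev j) = (starRingEnd ℂ) (rt g j) := by
  set z : ℂ := exp (2 * Real.pi * I / orderOf g) with hz
  have hp : IsPrimitiveRoot z (orderOf g) := prim g
  have h1 : rt g (Fin.rev j) * rt g j = 1 := by
    unfold rt
    rw [← hz, ← pow_add]
    have h2 : ((Fin.rev j : Fin (Nat.card Γ - 1)) : ℕ) + 1 + ((j : ℕ) + 1) = Nat.card Γ := by
      rw [Fin.val_rev]
      have := j.2
      omega
    rw [h2]
    exact (hp.pow_eq_one_iff_dvd _).2 (orderOf_dvd_natCard g)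
  have h3 : (starRingEnd ℂ) (rt g j) * rt g j = 1 := by
    rw [mul_comm, Complex.mul_conj, Complex.normSq_eq_norm_sq, norm_rt]
    simp
  have h4 : rt g j ≠ 0 := by
    intro h
    have := norm_rt g j
    rw [h, norm_zero] at this
    exact zero_ne_one this
  exact mul_right_cancel₀ h4 (h1.trans h3.symm)

theorem real_rt (g : Γ) {f : ℂ → ℂ}
    (hf : ∀ j, f ((starRingEnd ℂ) (rt g j)) = (starRingEnd ℂ) (f (rt g j))) :
    (∑ j, f (rt g j)).im = 0 := by
  have h1 : (starRingEnd ℂ) (∑ j, f (rt g j)) = ∑ j, f (rt g j) := by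
    rw [map_sum, ← Equiv.sum_comp Fin.revPerm]
    refine Finset.sum_congr rfl fun j _ => ?_
    rw [Fin.revPerm_apply, rt_rev, hf, Complex.conj_conj]
  exact Complex.conj_eq_iff_im.1 h1

variable {F : Type} [Field F] [NumberField F] {P : HeightOneSpectrum (𝓞 F) → Prop}
  {φ : HeightOneSpectrum (𝓞 F) → Γ}

/-- the system of primes -/
theorem split_sys : Sys (NN P) (al 0 fun v => rt (φ v)) := by
  refine nf_sys P (al 0 fun v => rt (φ v)) (fun v j => ?_) fun v => ?_
  · have hq : (0 : ℝ) < nm v.1 := by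
      have := two_le_nm v.1
      positivity
    unfold al
    rw [norm_div, norm_rt]
    simp
  · have hq2 : (2 : ℝ) ≤ nm v.1 := by exact_mod_cast two_le_nm v.1
    have hs : 1 < √(nm v.1 : ℝ) := by
      rw [Real.lt_sqrt (by norm_num)]
      linarith
    unfold al
    simp only [Nat.cast_zero, zero_div, Real.rpow_zero, Complex.ofReal_one, div_one]
    refine real_rt (f := fun z => log (1 - z / ((√(nm v.1 : ℝ) : ℝ) : ℂ))) (φ v.1) fun j => ?_
    have h1 : ‖rt (φ v.1) j / ((√(nm v.1 : ℝ) : ℝ) : ℂ)‖ < 1 := by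
      rw [norm_div, norm_rt, Complex.norm_real, Real.norm_of_nonneg (by linarith),
        div_lt_one (by linarith)]
      exact hs
    have h2 : 0 < (1 - rt (φ v.1) j / ((√(nm v.1 : ℝ) : ℝ) : ℂ)).re := by
      rw [Complex.sub_re, Complex.one_re]
      have := (Complex.re_le_norm _).trans_lt h1
      linarith
    have h3 := Complex.log_conj (1 - rt (φ v.1) j / ((√(nm v.1 : ℝ) : ℝ) : ℂ)) (fun h => by
      have := Complex.arg_eq_pi_iff.1 h
      linarith [this.1])
    rw [← h3, map_sub, map_one, map_div₀, Complex.conj_ofReal]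

theorem split_real (v : {v // P v}) (k : ℕ) :
    (∑ j, zv (NN P) (al 0 fun v => rt (φ v)) v j ^ k).im = 0 := by
  unfold zv al
  simp only [Nat.cast_zero, zero_div, Real.rpow_zero, Complex.ofReal_one, div_one]
  refine real_rt (f := fun z => (z / ((√((NN P v : ℕ) : ℝ) : ℝ) : ℂ)) ^ k) (φ v.1) fun j => ?_
  rw [map_pow, map_div₀, Complex.conj_ofReal]

/-- the data of the mean square theorem -/
theorem mc_split {Z : ℂ → ℂ} {η C : ℝ} {κ : ℕ} (hη : 0 < η)
    (hL : ∀ s : ℂ, 1 < s.re → Z s = Q284.M.LX P (fun v => rt (φ v)) s)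
    (hd : ∀ s : ℂ, 1 / 2 - η < s.re → DifferentiableAt ℂ Z s)
    (hg : ∀ s : ℂ, 1 / 2 - η < s.re → ‖Z s‖ ≤ C * (1 + ‖s‖) ^ κ) :
    Pool.Agent.TH270.MS.Mc (NN P) (al 0 fun v => rt (φ v))
      (fun s => Z (((((0 : ℕ) : ℝ) + 1) / 2 : ℝ) + s))
      (fun s => Z (((((0 : ℕ) : ℝ) + 1) / 2 : ℝ) + s)) 0 κ η
        (C * (1 + (((0 : ℕ) : ℝ) + 1) / 2) ^ κ) where
  E := split_sys
  hreal := split_real
  hη := hη
  hG := fun s hs => by
    have h1 : DifferentiableAt ℂ Z (((((0 : ℕ) : ℝ) + 1) / 2 : ℝ) + s) := by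
      refine hd _ ?_
      rw [Complex.add_re, Complex.ofReal_re]
      push_cast
      linarith
    exact h1.comp s ((differentiableAt_const _).add differentiableAt_id)
  hgrow := fun s hs => by
    have hc : (0 : ℝ) ≤ (((0 : ℕ) : ℝ) + 1) / 2 := by positivity
    have h1 := hg (((((0 : ℕ) : ℝ) + 1) / 2 : ℝ) + s) (by
      rw [Complex.add_re, Complex.ofReal_re]
      push_cast
      linarith)
    have hC : 0 ≤ C := by
      by_contra h
      push Not at h
      have h2 : C * (1 + ‖(((((0 : ℕ) : ℝ) + 1) / 2 : ℝ) : ℂ) + s‖) ^ κ < 0 :=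
        mul_neg_of_neg_of_pos h (by positivity)
      linarith [norm_nonneg (Z (((((0 : ℕ) : ℝ) + 1) / 2 : ℝ) + s))]
    refine h1.trans ?_
    rw [mul_assoc, ← mul_pow]
    refine mul_le_mul_of_nonneg_left (pow_le_pow_left₀ (by positivity) ?_ κ) hC
    have h2 := norm_add_le (((((0 : ℕ) : ℝ) + 1) / 2 : ℝ) : ℂ) s
    rw [Complex.norm_real, Real.norm_of_nonneg hc] at h2
    nlinarith [norm_nonneg s]
  hΨ := fun s _ _ => by rw [pow_zero, one_mul]
  hL := fun s hs => by
    rw [← Q284.M.LX_eq]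
    refine hL _ ?_
    rw [Complex.add_re, Complex.ofReal_re]
    push_cast
    linarith

end Pool.Agent.Q284.T
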