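import Pool.Agent.Q284.T.Alg
import Pool.Agent.Q284.T.Rts

/-!
# The Euler products of the irreducible representations and their orders
-/

set_option autoImplicit false

namespace Pool.Agent.Q284.T

open Complex NumberField IsDedekindDomain Filter Topology Module Set
open scoped Classical
open Pool.Agent.H921R2.TatePole (nm two_le_nm nm_summable)
open Pool.Agent.TH942.ES
open Pool.Agent.Q284.M (NN al)
open Pool.Agent.Q286.RL (Fam ED ec CD cser)
open Pool.Agent.W189.LC (fr)

variable {Γ : Type} [Group Γ] [Finite Γ]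

variable {F : Type} [Field F] [NumberField F] {P : HeightOneSpectrum (𝓞 F) → Prop}
  {φ : HeightOneSpectrum (𝓞 F) → Γ}

/-- the Euler product of a representation -/
noncomputable def LR (P : HeightOneSpectrum (𝓞 F) → Prop) (φ : HeightOneSpectrum (𝓞 F) → Γ) {d : ℕ}
    (ρ : Representation ℂ Γ (Fin d → ℂ)) (s : ℂ) : ℂ :=
  ∏' v : {v // P v}, (LinearMap.det (1 - (nm v.1 : ℂ) ^ (-s) • ρ (φ v.1)))⁻¹

/-- the coefficients of a class function -/
noncomputable def cc (P : HeightOneSpectrum (𝓞 F) → Prop) (φ : HeightOneSpectrum (𝓞 F) → Γ)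
    (f : Γ → ℂ) (x : {v // P v} × ℕ) : ℂ := f (φ x.1.1 ^ (x.2 + 1)) / ((x.2 + 1 : ℕ) : ℂ)

/-- the frequencies -/
noncomputable def lf (P : HeightOneSpectrum (𝓞 F) → Prop) (x : {v // P v} × ℕ) : ℝ :=
  fr (fun v : {v // P v} => (nm v.1 : ℝ)) x

theorem ed_of {J : Type} [Fintype J] {th : {v // P v} → J → ℂ} (h : ∀ v j, ‖th v j‖ = 1) :
    ED (fun v : {v // P v} => (nm v.1 : ℝ)) th where
  two_le := fun v => by exact_mod_cast two_le_nm v.1
  sum := fun σ hσ => (nm_summable (K := F) hσ).comp_injective Subtype.val_injective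
  th_le := fun v j => by rw [h]; norm_num

theorem LR_data {d : ℕ} (ρ : Representation ℂ Γ (Fin d → ℂ)) :
    CD (lf P) (cc P φ ρ.character) ∧
      ∀ s : ℂ, 1 < s.re → LR P φ ρ s = exp (cser (lf P) (cc P φ ρ.character) s) := by
  have hA : ∀ g : Γ, (ρ g) ^ Nat.card Γ = 1 := fun g => by
    rw [← map_pow, pow_card_eq_one', map_one]
  choose l h1 h2 h3 h4 using fun g => exists_eig' (ρ g) Nat.card_pos (hA g)
  have E := ed_of (F := F) (P := P) (th := fun v => l (φ v.1)) fun v j => h1 _ j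
  have hec : ec (fun v : {v // P v} => l (φ v.1)) = cc P φ ρ.character := by
    funext x
    unfold ec cc Representation.character
    rw [map_pow, h3]
  refine ⟨hec ▸ E.cd, fun s hs => ?_⟩
  have h5 := (E.hasProd hs).tprod_eq
  rw [hec] at h5
  unfold LR lf
  rw [← h5]
  refine tprod_congr fun v => ?_
  rw [h2, Finset.prod_inv_distrib]
  congr 1
  refine Finset.prod_congr rfl fun j _ => ?_
  rw [mul_comm]
  simp

/-- the augmentation function -/
noncomputable def ag (g : Γ) : ℂ := (if g = 1 then (Nat.card Γ : ℂ) else 0) - 1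

theorem LX_data : CD (lf P) (cc P φ (ag (Γ := Γ))) ∧ ∀ s : ℂ, 1 < s.re →
    Q284.M.LX P (fun v => rt (φ v)) s = exp (cser (lf P) (cc P φ (ag (Γ := Γ))) s) := by
  have E := ed_of (F := F) (P := P) (th := fun v => rt (φ v.1)) fun v j => norm_rt _ j
  have hec : ec (fun v : {v // P v} => rt (φ v.1)) = cc P φ (ag (Γ := Γ)) := by
    funext x
    unfold ec cc ag
    rw [sum_rt]
  refine ⟨hec ▸ E.cd, fun s hs => ?_⟩
  have h5 := (E.hasProd hs).tprod_eq
  rw [hec] at h5
  exact h5

variable {κ : Type} [Fintype κ] {n : κ → ℕ} {r : ∀ k, Representation ℂ Γ (Fin (n k) → ℂ)}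

/-- **the Euler product of the augmentation representation** -/
theorem prod_LR (h : Fam r) {s : ℂ} (hs : 1 < s.re) :
    ∏ k ∈ Finset.univ.filter (fun k => NT (r k)), LR P φ (r k) s ^ n k =
      Q284.M.LX P (fun v => rt (φ v)) s := by
  have h1 : ∀ k, LR P φ (r k) s ^ n k =
      exp (n k * cser (lf P) (cc P φ (r k).character) s) := fun k => by
    rw [(LR_data (r k)).2 s hs, ← Complex.exp_nat_mul]
  simp only [h1]
  rw [← Complex.exp_sum, LX_data.2 s hs]
  congr 1
  unfold cser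
  simp only [← tsum_mul_left]
  rw [← Summable.tsum_finsetSum fun k _ => ((LR_data (P := P) (φ := φ) (r k)).1.summable hs).mul_left _]
  refine tsum_congr fun x => ?_
  have h2 := aug h (φ x.1.1 ^ (x.2 + 1))
  have h3 : cc P φ (ag (Γ := Γ)) x = ∑ k ∈ Finset.univ.filter (fun k => NT (r k)),
      (n k : ℂ) * cc P φ (r k).character x := by
    unfold cc ag
    rw [← h2, Finset.sum_div]
    exact Finset.sum_congr rfl fun k _ => mul_div_assoc _ _ _
  rw [h3, Finset.sum_mul]
  exact Finset.sum_congr rfl fun k _ => (mul_assoc _ _ _).symm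

theorem LR_ne {d : ℕ} (ρ : Representation ℂ Γ (Fin d → ℂ)) {s : ℂ} (hs : 1 < s.re) :
    LR P φ ρ s ≠ 0 := by
  rw [(LR_data ρ).2 s hs]
  exact Complex.exp_ne_zero _

variable {L : κ → ℂ → ℂ} {Z : ℂ → ℂ}

theorem pre_half (a : ℝ) : IsPreconnected {z : ℂ | a < z.re} :=
  (convex_halfSpace_re_gt a).isPreconnected

/-- the orders are finite -/
theorem ord_ne_top {a : ℝ} {d : ℕ} {ρ : Representation ℂ Γ (Fin d → ℂ)} {f : ℂ → ℂ}
    (hf : ∀ s : ℂ, 1 < s.re → f s = LR P φ ρ s) (hm : ∀ z : ℂ, a < z.re → MeromorphicAt f z)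
    {z : ℂ} (hz : a < z.re) : meromorphicOrderAt f z ≠ ⊤ := by
  have hM : MeromorphicOn f {z : ℂ | a < z.re} := fun z hz => hm z hz
  set w : ℂ := ((max a 1 + 1 : ℝ) : ℂ) with hw
  have hwa : a < w.re := by
    rw [hw, Complex.ofReal_re]
    linarith [le_max_left a 1]
  have hw1 : 1 < w.re := by
    rw [hw, Complex.ofReal_re]
    linarith [le_max_right a 1]
  refine hM.meromorphicOrderAt_ne_top_of_isPreconnected (pre_half a) (x := w) hwa hz ?_
  intro h
  rw [meromorphicOrderAt_eq_top_iff] at h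
  have h1 : ∀ᶠ s in 𝓝[≠] w, 1 < s.re :=
    nhdsWithin_le_nhds ((isOpen_lt continuous_const Complex.continuous_re).mem_nhds hw1)
  obtain ⟨s, h2, h3⟩ := (h.and h1).exists
  rw [hf s h3] at h2
  exact LR_ne ρ h3 h2

/-- **the order of the quotient of the zeta functions** -/
theorem ord_Z (h : Fam r) {a : ℝ} (hL : ∀ k, ∀ s : ℂ, 1 < s.re → L k s = LR P φ (r k) s)
    (hm : ∀ k, ∀ z : ℂ, a < z.re → MeromorphicAt (L k) z)
    (hZ : ∀ s : ℂ, 1 < s.re → Z s = Q284.M.LX P (fun v => rt (φ v)) s)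
    (hd : ∀ z : ℂ, a < z.re → MeromorphicAt Z z) {z : ℂ} (hz : a < z.re) :
    meromorphicOrderAt Z z = ((∑ k ∈ Finset.univ.filter (fun k => NT (r k)),
      (n k : ℤ) * (meromorphicOrderAt (L k) z).untop₀ : ℤ) : WithTop ℤ) := by
  set Q : ℂ → ℂ := fun s => ∏ k ∈ Finset.univ.filter (fun k => NT (r k)), (L k s) ^ n k with hQ
  have hQm : ∀ z : ℂ, a < z.re → MeromorphicAt Q z := fun z hz => by
    exact MeromorphicAt.fun_prod (s := Finset.univ.filter (fun k => NT (r k)))
      (F := fun k => (L k) ^ n k) (x := z) fun k _ => (hm k z hz).pow (n k)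
  have hM : MeromorphicOn (fun s => Q s - Z s) {z : ℂ | a < z.re} := fun z hz =>
    (hQm z hz).fun_sub (hd z hz)
  have htop : meromorphicOrderAt (fun s => Q s - Z s) z = ⊤ := by
    by_contra hne
    set w : ℂ := ((max a 1 + 1 : ℝ) : ℂ) with hw
    have hwa : a < w.re := by
      rw [hw, Complex.ofReal_re]
      linarith [le_max_left a 1]
    have hw1 : 1 < w.re := by
      rw [hw, Complex.ofReal_re]
      linarith [le_max_right a 1]
    refine hM.meromorphicOrderAt_ne_top_of_isPreconnected (pre_half a) (x := z) hz hwa hne ?_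
    rw [meromorphicOrderAt_eq_top_iff]
    have h1 : ∀ᶠ s in 𝓝[≠] w, 1 < s.re :=
      nhdsWithin_le_nhds ((isOpen_lt continuous_const Complex.continuous_re).mem_nhds hw1)
    filter_upwards [h1] with s hs
    rw [hZ s hs, ← prod_LR h hs, hQ]
    simp only [fun k => hL k s hs, sub_self]
  rw [meromorphicOrderAt_eq_top_iff] at htop
  have h1 : Z =ᶠ[𝓝[≠] z] Q := by
    filter_upwards [htop] with s hs
    exact (sub_eq_zero.1 hs).symm
  rw [meromorphicOrderAt_congr h1]
  have h2 := meromorphicOrderAt_fun_prod (s := Finset.univ.filter (fun k => NT (r k)))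
    (f := fun k => (L k) ^ n k) (x := z) fun k _ => (hm k z hz).pow (n k)
  have h3 : meromorphicOrderAt Q z = ∑ k ∈ Finset.univ.filter (fun k => NT (r k)),
      meromorphicOrderAt ((L k) ^ n k) z := h2
  rw [h3]
  have h4 : ∀ k, meromorphicOrderAt ((L k) ^ n k) z =
      (((n k : ℤ) * (meromorphicOrderAt (L k) z).untop₀ : ℤ) : WithTop ℤ) := by
    intro k
    rw [meromorphicOrderAt_pow (hm k z hz)]
    have h5 := ord_ne_top (hL k) (hm k) hz
    obtain ⟨m, hm'⟩ := WithTop.ne_top_iff_exists.1 h5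
    rw [← hm', WithTop.untop₀_coe]
    norm_cast
  simp only [h4]
  push_cast
  rfl

end Pool.Agent.Q284.T
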